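import Mathlib
import Pool.Agent.TH170.GS.Main
import Pool.Agent.Y1.KN.All
import Pool.Agent.Y1.KN.Use
import Pool.Agent.TH170.GS.TB

/-!
# The Tate conjecture for higher Chow groups of smooth varieties over finite fields: almost all
slope types of all CM fields with few CM subfields, and of all CM fields whose degree has a large
prime factor

Over an algebraic closure of the field with `p` elements each abelian variety is isogenous to the
reduction of an abelian variety of CM type (Honda, Tate). So an abelian variety over the field with
`p ^ a` elements is modelled by `RedAV`: a finite product of CM types `(E i, Φ i)` with Weil numbers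
`π i ∈ E i` that satisfy the formula of Shimura and Taniyama; its cohomology of degree `n`, with
coefficients in an algebraically closed field `Ω`, consists of the alternating `n`-forms on `Ω ⊗
H_1`, on which the Frobenius endomorphism acts by `π`. We fix an isomorphism `ν` of the algebraic
closure of `ℚ_p` with `ℂ`; it defines a `p`-adic valuation of `ℂ`, with the value one at `p`.

Let `K i` be finitely many CM fields, of degrees `2 g i`, that are pairwise independent: for `i ≠ k`
and all complex embeddings `φ` of `K i` and `ψ` of `K k` some automorphism of `ℂ` is the identity on
`φ (K i)` and the complex conjugation on `ψ (K k)` (this is no condition for one field). Nothing is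
assumed about their Galois groups. Let `M i` be a function with nonzero integral values, all of
which divide `n i`, on the complex embeddings of `K i`, invariant under complex conjugation (the
weights). A CM type `Φ i` of `K i` (a choice of one element out of each complex conjugate pair of
embeddings; there are `2 ^ (g i)` types), `M i` and a real number `κ ≠ 0` prescribe the slopes `(a +
κ M) / 2` (at the embeddings in `Φ i`) and `(a - κ M) / 2` (outside of `Φ i`) of a Weil number in `K
i`. If `p` splits completely in `K i` then, by Honda and Tate, all slopes with rational values
between `0` and `a` that are symmetric in this way occur for abelian varieties. The case `M = 1`, `κ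
= a` is the ordinary case; the assumption on `M` says that `a / 2` is not a slope. Slopes are
rational, so integral weights `M` are no restriction.

For a family of types `Φ i` let `𝒞` (`OfTypes`) be the class of the abelian varieties `Y` each of
whose factors is supersingular or has a Frobenius endomorphism some power of which is, for some `i`,
a Weil number in `K i` with the slopes prescribed by `Φ i`, `M i` and some real number `κ i ≠ 0`
(which depends only on `Y` and `i`). So `Y` is, over an algebraic closure, isogenous to a product of
powers of one abelian variety for each `i`, with the given slopes, and of a supersingular one.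

`Homology Ω V` are data of motivic homology `M X i j = H_i^M(X, ℚ(j)) = CH_j(X, i - 2 j) ⊗ ℚ` and of
`ℓ`-adic homology `E X i j = H_i(X, ℚ_ℓ(j))` (coefficients extended to `Ω`) of schemes `X` of finite
type over a finite field (the elements of `V`), with the Frobenius and the regulator. For a family
of types let `𝒢` be the smallest class (`Generated`) of such schemes that contains those with the
homology groups of abelian varieties in `𝒞` (`IsAbelianOfTypes`), that is closed under direct
summands of finite sums of twists of motives, and that contains all of a closed subscheme `Z` of
`X`, `X` and `X ∖ Z` if it contains two of them. It contains for instance all products of varieties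
in `𝒞`, all products of curves with Jacobians in `𝒞` and of open subsets of such curves, symmetric
powers of them, and the singular and the open varieties with a stratification by such varieties.

The property `Q` (`Holds`) of a family of types: let `X` be a smooth variety of pure dimension `d`
in `𝒢`, projective or not (the theorem is true for all members). Then `H^i_M(X, ℚ(j)) = CH^j(X, 2 j
- i) ⊗ ℚ = H_(2 d - i)^M(X, ℚ(d - j)) = M X (2 d - i) (d - j)` and the same for `ℓ`-adic cohomology.
**For all `i` and `j` the map `c^(i, j)` is surjective** (`Surjective`): every Frobenius invariant
element of `H^i(X, ℚ_ℓ(j)) ⊗ Ω` is a linear combination of images of elements of `H^i_M(X, ℚ(j))`;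
moreover the eigenvalue one of the Frobenius on it is semisimple.

Properties of the theory of cycles that are used for the abelian varieties (`IsChow`, `IsMotivic`):
Poincaré duality, the formal properties of correspondences, the nilpotence of homologically trivial
correspondences (Kimura), the operation of the Frobenius endomorphism on higher Chow groups, the
vanishing of the higher rational `K`-groups of a finite field (Quillen), and the algebraicity of the
classes in `Alg` (of which only products of classes of divisors matter here, theorem of Tate). The
passage from the Tate conjecture to all degrees and to the class `Generated` is due to Soulé,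
Geisser, Kahn and Jannsen; it was formalized in the starting files.

A family of types is exceptional (`exceptionalFamilies ν K M`) if the property `Q` (`Holds`) is
false for it. The theorem bounds the number of the exceptional families: it is at most `2 ^ (∑ i, g
i) * ∑ i, C * (n i) ^ 2 * rate (K i) (g i) (q i)`, with an absolute constant `C`. Here `q i` is any
prime factor of `g i` (or `q i = 1`), and `rate K g q` is `(1 + log (2 g)) ^ 16` times the smaller
of the numbers

* `W (K) / √g`, where (second part of the theorem, `WeightEstimate`) `W (K) ≤ N ^ 2 * D ^ (1 / 4)`;
  `N` is the number of the CM subfields of `K` (with `K`) and `D` is the largest degree of a CM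
  subfield of `K` that is normal over `ℚ` with a nonabelian Galois group (`D = 1` if there are
  none);
* `√g / q`.

So the exceptional types are a proportion `O (n ^ 2 * g ^ (-1 / 4) * (log g) ^ 16)` of all types of
all CM fields with a bounded number of CM subfields, and `O (n ^ 2 * g ^ (-1 / 2) * (log g) ^ 16)`
if the normal nonabelian ones have bounded degrees (for instance if `K` has no proper CM subfields
and is not normal). And they are a proportion `O (n ^ 2 * g ^ (-δ) * (log g) ^ 16)` of the types of
all CM fields `K`, with any number of subfields, whose degree is divisible by a prime number `q ≥ g
^ (1 / 2 + δ)`; for small `δ` there are such primes for about `log 2`, that is 69%, of all numbers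
`g`. Some assumption is necessary: a multiquadratic CM field of degree `2 g` has `g` imaginary
quadratic subfields, and almost all of its types are degenerate. The bound of the starting file
`AlmostAllSlopeTypes` is a sum over the isotypic components of the odd part of the permutation
representation; it contains the logarithm of the order of the Galois group, and gives nothing if
this order is large and some components have high multiplicities. Here nothing is assumed about the
Galois group and the multiplicities.

The number `W (K)` (`subfieldWeight K`) is defined as follows. The automorphisms of `ℂ` act on the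
rational functions on the set of the complex embeddings of `K` which change their sign under complex
conjugation. A field of definition (`fieldsOfDefinition K`) of an isotypic component of this
representation is a smallest subfield `F` of `K` such that the values of the functions in the
component depend only on the restrictions of the embeddings to `F`. It is a CM field. Then `W (K)`
is the sum over these fields `F` of the number of the CM subfields of `F`, multiplied by `[F : ℚ] ^
(1 / 4)` if `F` is normal over `ℚ` and its Galois group is not abelian.

The proof: if the types have no relations then all relations between the Frobenius eigenvalues of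
`Y` come from complex conjugate pairs and from supersingular factors, and the Tate classes are
generated by classes of divisors (`TH170/GS`, `TH117` of the starting files). The bound for the
number of the degenerate types (the counting part of the theorem) is the one of `AllCMFields`
(MP_e12fcd_ag, MP_ee618e_ag) of the starting files.
-/

set_option autoImplicit false

namespace Pool.Agent.Results.MP_81b968_ag.AllCMFields

open NumberField Module Pool.Agent.H204R3.CM Pool.Agent.H977R3.CM Pool.Agent.TH170
  Pool.Agent.Y1.KN

open Pool.Agent.W495.TA Pool.Agent.W495.FM

/-- The map `c^(i, j)` is surjective onto the Frobenius invariant elements of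
`H^i(X, ℚ_ℓ(j)) = H_(2 d - i)(X, ℚ_ℓ(d - j))`, with coefficients `Ω`, and the eigenvalue one is
semisimple, for the variety `X` of dimension `d`. -/
def Surjective {Ω : Type} [Field Ω] {V : Type} (T : Homology Ω V) (X : V) (d i j : ℤ) : Prop :=
  (∀ e : T.E X (2 * d - i) (d - j), T.frob X _ _ e = e →
    e ∈ Submodule.span Ω (Set.range (T.reg X (2 * d - i) (d - j)))) ∧
    ∀ e : T.E X (2 * d - i) (d - j), T.frob X _ _ (T.frob X _ _ e - e) = T.frob X _ _ e - e →
      T.frob X _ _ e = e

/-- The maps `c^(i, j)` are surjective for all `i` and `j` and all smooth `X` of pure dimension `d`
generated by abelian varieties with the slope types `Φ`. -/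
def Holds {p : ℕ} [Fact p.Prime] (ν : PadicAlgCl p ≃+* ℂ) {I : Type} (K : I → Type)
    [∀ i, Field (K i)] (M : ∀ i, (K i →+* ℂ) → ℤ) (Φ : ∀ i, Set (K i →+* ℂ)) : Prop :=
  ∀ (Ω : Type) [Field Ω] [IsAlgClosed Ω] [CharZero Ω] (V : Type) (T : Homology Ω V), IsHomology T →
    ∀ X : V, Generated T (GS.IsAbelianOfTypes ν K M Φ T) X → ∀ d i j : ℤ, Surjective T X d i j

/-- The exceptional families of CM types. -/
def exceptionalFamilies {p : ℕ} [Fact p.Prime] (ν : PadicAlgCl p ≃+* ℂ) {I : Type} (K : I → Type)
    [∀ i, Field (K i)] (M : ∀ i, (K i →+* ℂ) → ℤ) : Set (∀ i, Set (K i →+* ℂ)) :=
  {Φ | (∀ i, IsCMType (Φ i)) ∧ ¬ Holds ν K M Φ}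

theorem holds_of {p : ℕ} [Fact p.Prime] {ν : PadicAlgCl p ≃+* ℂ} {I : Type} (K : I → Type)
    [∀ i, Field (K i)] (M : ∀ i, (K i →+* ℂ) → ℤ) (Φ : ∀ i, Set (K i →+* ℂ))
    (h : ∀ Y : RedAV p ν, GS.OfTypes K M Φ Y → ∃ Z : RedAV p ν,
      TH117.BL.HasElementaryRelations Z ∧ TH117.BL.IsPowersTimesSupersingular Z Y) :
    Holds ν K M Φ := fun _ _ _ _ _ _ hT X hX _ _ _ =>
  have h1 := GS.tb_types h hT hX _ _
  ⟨fun e he => (h1.1 e).1 he, h1.2.2⟩

/-- **The Tate conjecture for the higher Chow groups of all smooth varieties generated by abelian varieties
with almost all slope types of all CM fields with few CM subfields, and of all CM fields whose degree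
has a large prime factor.** -/
theorem result :
    (∃ C : ℝ, 0 ≤ C ∧ ∀ (p : ℕ) [Fact p.Prime] (ν : PadicAlgCl p ≃+* ℂ) (I : Type) [Fintype I]
      (K : I → Type) [∀ i, Field (K i)] [∀ i, NumberField (K i)] [∀ i, IsCMField (K i)]
      (M : ∀ i, (K i →+* ℂ) → ℤ) (n g q : I → ℕ), PairwiseIndep K →
      (∀ i φ, M i (ComplexEmbedding.conjugate φ) = M i φ) → (∀ i, n i ≠ 0) →
      (∀ i φ, M i φ ∣ (n i : ℤ)) → (∀ i, finrank ℚ (K i) = 2 * g i) →
      (∀ i, q i ∣ g i ∧ (q i = 1 ∨ (q i).Prime)) →
      ((exceptionalFamilies ν K M).ncard : ℝ) ≤
        2 ^ (∑ i, g i) * ∑ i, C * (n i : ℝ) ^ 2 * rate (K i) (g i) (q i)) ∧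
    WeightEstimate := by
  obtain ⟨C, hC0, hC⟩ := slope families_holds
  refine ⟨⟨C, hC0, ?_⟩, weight_estimate_holds⟩
  intro p _ ν I _ K _ _ _ M n g q hind hM hn hMn hg hq
  exact hC p ν I K M n g q hind hM hn hMn hg hq _ fun Φ h => holds_of K M Φ h

end Pool.Agent.Results.MP_81b968_ag.AllCMFields
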